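import Mathlib
import Pool.Agent.Y920.HN.Stm

set_option autoImplicit false

open MeasureTheory Filter Topology Pool.Agent.Y920.HN

namespace Pool.Agent.Y970.HN

/-- some coset of `V k` has positive measure -/
theorem exists_coset {G : Type} [Group G] [TopologicalSpace G] [MeasurableSpace G]
    (F : Filt G) (k : ℕ) (μ : Measure G) [IsProbabilityMeasure μ] :
    ∃ a : G, 0 < μ {x | a⁻¹ * x ∈ F.V k} := by
  have := F.countable k
  by_contra hcon
  push Not at hcon
  have h0 : ∀ q : G ⧸ F.V k, μ {x | (q.out)⁻¹ * x ∈ F.V k} = 0 := fun q =>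
    nonpos_iff_eq_zero.1 (hcon q.out)
  have h1 : μ (⋃ q : G ⧸ F.V k, {x | (q.out)⁻¹ * x ∈ F.V k}) = 0 :=
    measure_iUnion_null h0
  have h2 : (⋃ q : G ⧸ F.V k, {x : G | (q.out)⁻¹ * x ∈ F.V k}) = Set.univ := by
    refine Set.eq_univ_of_forall fun x => ?_
    rw [Set.mem_iUnion]
    refine ⟨(x : G ⧸ F.V k), ?_⟩
    have : (((x : G ⧸ F.V k).out : G) : G ⧸ F.V k) = (x : G ⧸ F.V k) :=
      Quotient.out_eq' _
    exact QuotientGroup.eq.1 this
  rw [h2, measure_univ] at h1
  exact one_ne_zero h1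

/-- normalized restriction to a set of positive measure, translated by `a⁻¹` -/
theorem renorm {G : Type} [Group G] [TopologicalSpace G] [IsTopologicalGroup G]
    [MeasurableSpace G] [BorelSpace G] (μ : Measure G) [IsProbabilityMeasure μ] (a : G)
    (E T : Set G) (hT : MeasurableSet T) (hpos : 0 < μ E)
    (hET : ∀ x ∈ E, a⁻¹ * x ∈ T) :
    ∃ μ' : Measure G, IsProbabilityMeasure μ' ∧ μ' Tᶜ = 0 ∧
      ∀ S : Set G, MeasurableSet S → μ {x | a⁻¹ * x ∈ S} = 0 → μ' S = 0 := by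
  have hm : Measurable (fun x : G => a⁻¹ * x) := (continuous_const_mul a⁻¹).measurable
  have hp : IsProbabilityMeasure ((μ E)⁻¹ • μ.restrict E) := ⟨by
    rw [Measure.smul_apply, Measure.restrict_apply_univ, smul_eq_mul]
    exact ENNReal.inv_mul_cancel hpos.ne' (measure_ne_top _ _)⟩
  refine ⟨((μ E)⁻¹ • μ.restrict E).map (fun x => a⁻¹ * x),
    Measure.isProbabilityMeasure_map hm.aemeasurable, ?_, fun S hS h0 => ?_⟩
  · rw [Measure.map_apply hm hT.compl, Measure.smul_apply,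
      Measure.restrict_apply (hm hT.compl), smul_eq_mul]
    have : (fun x : G => a⁻¹ * x) ⁻¹' Tᶜ ∩ E = ∅ := by
      refine Set.eq_empty_of_forall_notMem fun x hx => ?_
      exact hx.1 (hET x hx.2)
    rw [this, measure_empty, mul_zero]
  · rw [Measure.map_apply hm hS, Measure.smul_apply,
      Measure.restrict_apply (hm hS), smul_eq_mul]
    have : μ ((fun x : G => a⁻¹ * x) ⁻¹' S ∩ E) = 0 :=
      measure_mono_null Set.inter_subset_left h0
    rw [this, mul_zero]

/-- HN-RED -/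
theorem t_RED : S_RED := by
  intro G _ _ _ _ _ _ F k B μ hB hμ h0
  obtain ⟨a, ha⟩ := exists_coset F k μ
  have hopen : IsOpen {x : G | a⁻¹ * x ∈ F.V k} :=
    (F.isOpen k).preimage (continuous_const_mul a⁻¹)
  obtain ⟨K, hKU, ⟨hK, hKc⟩, hKpos⟩ :=
    innerRegular_isCompact_isClosed_measurableSet_of_finite μ hopen.measurableSet 0 ha
  have hC : IsCompact ((fun x : G => a⁻¹ * x) '' K) := hK.image (continuous_const_mul a⁻¹)
  obtain ⟨μ', hμ', hc, hz⟩ := renorm μ a K ((fun x : G => a⁻¹ * x) '' K)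
    hC.measurableSet hKpos (fun x hx => ⟨x, hx, rfl⟩)
  refine ⟨(fun x : G => a⁻¹ * x) '' K, μ', hC, ?_, hμ', hc, fun g => ?_⟩
  · rintro _ ⟨x, hx, rfl⟩
    exact hKU hx
  · refine hz {x | g * x ∈ B} ((continuous_const_mul g).measurable hB) ?_
    have := h0 (g * a⁻¹)
    have he : {x : G | a⁻¹ * x ∈ {x : G | g * x ∈ B}} = {x : G | g * a⁻¹ * x ∈ B} := by
      ext x
      simp [mul_assoc]
    rw [he]
    exact this

end Pool.Agent.Y970.HN
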