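import Mathlib
import Pool.Agent.Y920.HN.Stm
import Pool.Agent.Y970.HN.RED

set_option autoImplicit false

open MeasureTheory Filter Topology Pool.Agent.Y920.HN

namespace Pool.Agent.Y970.HN

/-- HN-INF -/
theorem t_INF (h : S_CONV) : S_INF := by
  intro G _ _ _ _ _ _ F k B hB hyp
  have := F.countable k
  have hne : Nonempty (G ⧸ F.V k) := ⟨((1 : G) : G ⧸ F.V k)⟩
  obtain ⟨e, he⟩ := exists_surjective_nat (G ⧸ F.V k)
  -- representatives
  have key : ∀ m : ℕ, ∃ ν : Measure G, IsProbabilityMeasure ν ∧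
      ν (F.V (k + m) : Set G)ᶜ = 0 ∧
      ∀ g : G, ∀ s ∈ F.V k, ν {y | g * y * (s * (e m).out) ∈ B} = 0 := by
    intro m
    obtain ⟨ν, hν, -, hz⟩ := hyp (e m).out
    obtain ⟨a, ha⟩ := exists_coset F (k + m) ν
    obtain ⟨ν', hν', hc, hz'⟩ := renorm ν a {x | a⁻¹ * x ∈ F.V (k + m)} (F.V (k + m) : Set G)
      (F.isOpen (k + m)).measurableSet ha (fun x hx => hx)
    refine ⟨ν', hν', hc, fun g s hs => ?_⟩
    have hcont : Continuous fun y : G => g * y * (s * (e m).out) := by fun_prop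
    refine hz' {y | g * y * (s * (e m).out) ∈ B} (hcont.measurable hB) ?_
    have := hz (g * a⁻¹) s hs
    have heq : {x : G | a⁻¹ * x ∈ {y : G | g * y * (s * (e m).out) ∈ B}} =
        {y : G | g * a⁻¹ * y * (s * (e m).out) ∈ B} := by
      ext x
      simp [mul_assoc]
    rw [heq]
    exact this
  choose ν hν hc hz using key
  obtain ⟨l, hl, hconv⟩ := h G F k ν hν hc
  refine ⟨l, hl, fun g t => ?_⟩
  obtain ⟨m, hm⟩ := he (t : G ⧸ F.V k)
  refine hconv m B t hB (fun g' s hs => ?_) g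
  -- `t = s₀ * t_m`
  have hn := F.normal k
  have h1 : (e m).out⁻¹ * t ∈ F.V k := by
    have : (((e m).out : G) : G ⧸ F.V k) = (t : G ⧸ F.V k) := by
      rw [← hm]
      exact Quotient.out_eq' _
    exact QuotientGroup.eq.1 this
  have h2 : t * (e m).out⁻¹ ∈ F.V k := hn.mem_comm h1
  have h3 := hz m g' (s * (t * (e m).out⁻¹)) (mul_mem hs h2)
  have heq : s * (t * (e m).out⁻¹) * (e m).out = s * t := by group
  rw [heq] at h3
  exact h3

end Pool.Agent.Y970.HN
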